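import Pool.Agent.helper55.NM.Spec

/-!
# GG2: at most two big elements
-/

set_option autoImplicit false

namespace Pool.Agent.helper66.NM

open Pool.Agent.NM Finset

theorem GG2_fib {p : ℕ} (S E : Finset (Fin p)) (hdisj : Disjoint S E) (hun : S ∪ E = univ)
    (H : Finset (Finset (Fin p))) (w : Finset (Fin p) → ℝ) (hw : ∀ I, 0 ≤ w I) (ρ c : ℝ)
    (h0 : 0 ≤ ρ) (h1 : ρ ≤ 1)
    (hc : ∀ T ⊆ S, ∑ A ∈ E.powerset, ρ ^ A.card * (1 - ρ) ^ (E.card - A.card) *
      (if T ∪ A ∈ H then w (T ∪ A) else 0) ≤ c) :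
    ∑ I ∈ H, ρ ^ I.card * (1 - ρ) ^ (p - I.card) * w I ≤ c := by
  have hs : 0 ≤ 1 - ρ := by linarith
  have hp : p = S.card + E.card := by
    have h := card_union_of_disjoint hdisj
    rw [hun, card_univ, Fintype.card_fin] at h
    exact h
  rw [← sum_fiberwise_of_maps_to (s := H) (t := S.powerset) (g := fun I => I ∩ S)
    (fun I _ => mem_powerset.2 inter_subset_right)]
  have key : ∀ T ∈ S.powerset, ∑ I ∈ H with I ∩ S = T,
      ρ ^ I.card * (1 - ρ) ^ (p - I.card) * w I ≤
      ρ ^ T.card * (1 - ρ) ^ (S.card - T.card) * c := by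
    intro T hT
    have hTS := mem_powerset.1 hT
    obtain ⟨ψ, hψ⟩ : ∃ ψ : Finset (Fin p) → ℝ, ∀ A, ψ A = ρ ^ A.card *
      (1 - ρ) ^ (E.card - A.card) * (if T ∪ A ∈ H then w (T ∪ A) else 0) := ⟨_, fun A => rfl⟩
    have hψ0 : ∀ A, 0 ≤ ψ A := by
      intro A
      rw [hψ]
      refine mul_nonneg (mul_nonneg (pow_nonneg h0 _) (pow_nonneg hs _)) ?_
      split_ifs
      · exact hw _
      · exact le_refl _
    have hI : ∀ I ∈ H.filter (fun I => I ∩ S = T), I = T ∪ (I ∩ E) := by
      intro I hI
      rw [mem_filter] at hI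
      calc I = I ∩ univ := (inter_univ I).symm
        _ = I ∩ (S ∪ E) := by rw [hun]
        _ = (I ∩ S) ∪ (I ∩ E) := inter_union_distrib_left I S E
        _ = T ∪ (I ∩ E) := by rw [hI.2]
    have e1 : ∑ I ∈ H with I ∩ S = T, ρ ^ I.card * (1 - ρ) ^ (p - I.card) * w I =
        ρ ^ T.card * (1 - ρ) ^ (S.card - T.card) * ∑ I ∈ H with I ∩ S = T, ψ (I ∩ E) := by
      rw [mul_sum]
      refine sum_congr rfl ?_
      intro I hIm
      have h2 := hI I hIm
      have hd : Disjoint T (I ∩ E) :=
        disjoint_of_subset_left hTS (disjoint_of_subset_right inter_subset_right hdisj)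
      have hcard : I.card = T.card + (I ∩ E).card := by
        have h3 := card_union_of_disjoint hd
        rw [← h2] at h3
        exact h3
      have hmem : T ∪ (I ∩ E) ∈ H := by
        rw [← h2]
        exact (mem_filter.1 hIm).1
      have hTc := card_le_card hTS
      have hEc : (I ∩ E).card ≤ E.card := card_le_card inter_subset_right
      have hpc : p - I.card = (S.card - T.card) + (E.card - (I ∩ E).card) := by omega
      rw [hψ, if_pos hmem, ← h2, hpc, hcard, pow_add, pow_add]
      ring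
    rw [e1]
    refine mul_le_mul_of_nonneg_left ?_ (mul_nonneg (pow_nonneg h0 _) (pow_nonneg hs _))
    refine le_trans ?_ (hc T hTS)
    have e2 : ∑ I ∈ H with I ∩ S = T, ψ (I ∩ E) =
        ∑ A ∈ (H.filter fun I => I ∩ S = T).image (fun I => I ∩ E), ψ A := by
      rw [sum_image]
      intro I hIm I' hIm' heq
      calc I = T ∪ (I ∩ E) := hI I hIm
        _ = T ∪ (I' ∩ E) := by
          have heq' : I ∩ E = I' ∩ E := heq
          rw [heq']
        _ = I' := (hI I' hIm').symm
    rw [e2]
    have e3 : ∑ A ∈ E.powerset, ρ ^ A.card * (1 - ρ) ^ (E.card - A.card) *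
        (if T ∪ A ∈ H then w (T ∪ A) else 0) = ∑ A ∈ E.powerset, ψ A :=
      sum_congr rfl fun A _ => (hψ A).symm
    rw [e3]
    exact sum_le_sum_of_subset_of_nonneg (by
      intro A hA
      obtain ⟨I, -, rfl⟩ := mem_image.1 hA
      exact mem_powerset.2 inter_subset_right) (fun A _ _ => hψ0 A)
  refine (sum_le_sum key).trans ?_
  rw [← sum_mul, sum_pow_mul_eq_add_pow]
  have h3 : ρ + (1 - ρ) = 1 := by ring
  rw [h3, one_pow, one_mul]

theorem GG2_s (ε ρ : ℝ) (hε : 0 < ε) (h1 : 1 / 3 + ε ≤ ρ) (h2 : ρ ≤ 1 / 2 - ε) :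
    1 ≤ 2 * (1 - ρ) * (1 - ε) := by
  nlinarith

theorem GG2_pair (ε ρ R x y : ℝ) (hε : 0 < ε) (h1 : 1 / 3 + ε ≤ ρ) (h2 : ρ ≤ 1 / 2 - ε)
    (hR0 : 0 ≤ R) (hR : R ≤ 1 - 2 * ε) (hx0 : 0 ≤ x) (hx1 : x ≤ 1) (hy0 : 0 ≤ y) (hy1 : y ≤ 1)
    (h : x = 0 ∨ y = 0 ∨ x ≤ R ^ 2) : (1 - ρ) * x + ρ * y ≤ 1 - ε := by
  rcases h with h | h | h
  · rw [h]
    nlinarith
  · rw [h]
    nlinarith
  · have e1 : R ^ 2 ≤ (1 - 2 * ε) ^ 2 := pow_le_pow_left₀ hR0 hR 2
    have e2 : (1 - ρ) * x ≤ (1 - ρ) * (1 - 2 * ε) ^ 2 :=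
      mul_le_mul_of_nonneg_left (h.trans e1) (by linarith)
    have e3 : ρ * y ≤ ρ * 1 := mul_le_mul_of_nonneg_left hy1 (by linarith)
    have e4 : (1 - ρ) * (1 - 2 * ε) ^ 2 = (1 - ρ) - (1 - ρ) * (4 * ε * (1 - ε)) := by ring
    have e5 : ε ≤ (1 - ρ) * (4 * ε * (1 - ε)) := by
      have e6 : (1 / 2 : ℝ) * (4 * ε * (1 - ε)) ≤ (1 - ρ) * (4 * ε * (1 - ε)) :=
        mul_le_mul_of_nonneg_right (by linarith) (by
          have : 0 ≤ 1 - ε := by linarith
          positivity)
      nlinarith
    linarith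

theorem GG2_num (ε ρ R x1 x2 x3 y1 y2 y3 : ℝ) (hε : 0 < ε) (h1 : 1 / 3 + ε ≤ ρ)
    (h2 : ρ ≤ 1 / 2 - ε) (hR0 : 0 ≤ R) (hR : R ≤ 1 - 2 * ε)
    (a1 : 0 ≤ x1) (a2 : 0 ≤ x2) (a3 : 0 ≤ x3) (b1 : 0 ≤ y1) (b2 : 0 ≤ y2) (b3 : 0 ≤ y3)
    (c1 : x1 ≤ 1) (c2 : x2 ≤ 1) (c3 : x3 ≤ 1) (d1 : y1 ≤ 1) (d2 : y2 ≤ 1) (d3 : y3 ≤ 1)
    (p1 : x1 = 0 ∨ y1 = 0 ∨ x1 ≤ R ^ 2) (p2 : x2 = 0 ∨ y2 = 0 ∨ x2 ≤ R ^ 2)
    (q1 : x3 = 0 ∨ (x1 = 0 ∧ x2 = 0)) (q2 : y3 = 0 ∨ (y1 = 0 ∧ y2 = 0)) :
    ρ * (1 - ρ) ^ 2 * (x1 + x2) + ρ ^ 2 * (1 - ρ) * x3 + ρ ^ 2 * (1 - ρ) * (y1 + y2) +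
      ρ ^ 3 * y3 ≤ (1 - ε) * (2 * ρ * (1 - ρ)) := by
  have hρ : 0 < ρ := by linarith
  have hs : 0 < 1 - ρ := by linarith
  have hρs : 0 < ρ * (1 - ρ) := mul_pos hρ hs
  have e0 := GG2_s ε ρ hε h1 h2
  rcases q1 with q1 | ⟨q1, q1'⟩
  · rcases q2 with q2 | ⟨q2, q2'⟩
    · have e1 := GG2_pair ε ρ R x1 y1 hε h1 h2 hR0 hR a1 c1 b1 d1 p1
      have e2 := GG2_pair ε ρ R x2 y2 hε h1 h2 hR0 hR a2 c2 b2 d2 p2
      have e3 : ρ * (1 - ρ) * (((1 - ρ) * x1 + ρ * y1) + ((1 - ρ) * x2 + ρ * y2)) ≤
          ρ * (1 - ρ) * ((1 - ε) + (1 - ε)) :=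
        mul_le_mul_of_nonneg_left (by linarith) hρs.le
      rw [q1, q2]
      linarith
    · rw [q1, q2, q2']
      have e1 : ρ * (1 - ρ) ^ 2 * (x1 + x2) ≤ ρ * (1 - ρ) ^ 2 * 2 :=
        mul_le_mul_of_nonneg_left (by linarith) (by positivity)
      have e2 : ρ ^ 3 * y3 ≤ ρ ^ 3 * 1 := mul_le_mul_of_nonneg_left d3 (by positivity)
      have e3 : 2 * (1 - ρ) ^ 2 + ρ ^ 2 ≤ 2 * (1 - ρ) * (1 - ε) := by
        have e4 : 0 ≤ (ρ - 1 / 3) * (2 / 3 - ρ) := mul_nonneg (by linarith) (by linarith)
        have e5 : (1 - ρ) * ε ≤ (1 - ρ) * (1 / 2 - ρ) :=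
          mul_le_mul_of_nonneg_left (by linarith) hs.le
        nlinarith
      have e6 : ρ * (2 * (1 - ρ) ^ 2 + ρ ^ 2) ≤ ρ * (2 * (1 - ρ) * (1 - ε)) :=
        mul_le_mul_of_nonneg_left e3 hρ.le
      linarith
  · rcases q2 with q2 | ⟨q2, q2'⟩
    · rw [q1, q1', q2]
      have e1 : ρ ^ 2 * (1 - ρ) * (x3 + (y1 + y2)) ≤ ρ ^ 2 * (1 - ρ) * 3 :=
        mul_le_mul_of_nonneg_left (by linarith) (by positivity)
      have e2 : ρ * (1 - ρ) * (3 * ρ) ≤ ρ * (1 - ρ) * (2 * (1 - ε)) :=
        mul_le_mul_of_nonneg_left (by linarith) hρs.le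
      linarith
    · rw [q1, q1', q2, q2']
      have e1 : ρ ^ 2 * (1 - ρ) * x3 ≤ ρ ^ 2 * (1 - ρ) * 1 :=
        mul_le_mul_of_nonneg_left c3 (by positivity)
      have e2 : ρ ^ 3 * y3 ≤ ρ ^ 3 * 1 := mul_le_mul_of_nonneg_left d3 (by positivity)
      have e3 : ρ * ρ ≤ ρ * (2 * (1 - ρ) * (1 - ε)) :=
        mul_le_mul_of_nonneg_left (by linarith) hρ.le
      linarith

theorem GG2_pow2 {p : ℕ} (e u : Fin p) (hu : e ≠ u) (f : Finset (Fin p) → ℝ) :
    ∑ A ∈ (insert e {u} : Finset (Fin p)).powerset, f A = f ∅ + f {u} + (f {e} + f {e, u}) := by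
  have h1 : e ∉ ({u} : Finset (Fin p)) := by simp [hu]
  rw [sum_powerset_insert h1]
  have h2 : ∀ g : Finset (Fin p) → ℝ, ∑ A ∈ ({u} : Finset (Fin p)).powerset, g A = g ∅ + g {u} := by
    intro g
    rw [← insert_empty_eq, sum_powerset_insert (notMem_empty u)]
    simp
  rw [h2, h2]
  simp

theorem GG2_pow3 {p : ℕ} (e u v : Fin p) (hu : e ≠ u) (hv : e ≠ v) (huv : u ≠ v)
    (f : Finset (Fin p) → ℝ) :
    ∑ A ∈ (insert e {u, v} : Finset (Fin p)).powerset, f A =
      f ∅ + f {v} + (f {u} + f {u, v}) + (f {e} + f {e, v} + (f {e, u} + f {e, u, v})) := by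
  have h1 : e ∉ ({u, v} : Finset (Fin p)) := by simp [hu, hv]
  rw [sum_powerset_insert h1]
  rw [GG2_pow2 u v huv f, GG2_pow2 u v huv (fun t => f (insert e t))]
  simp

theorem GG2 : GG2_stmt := by
  intro p S H d ε ρ R hH hε h1 h2 hR0 hR hp hb
  obtain ⟨hi, hii, hiii⟩ := hH
  have hρ : 0 < ρ := by linarith
  have hs : 0 < 1 - ρ := by linarith
  have hR1 : R ≤ 1 := by linarith
  have hc0 : 0 ≤ (1 - ε) * (2 * ρ * (1 - ρ)) :=
    mul_nonneg (by linarith) (mul_nonneg (by linarith) hs.le)
  have hcard : S.card + (univ \ S).card = p := by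
    have h := card_sdiff_add_card_eq_card (subset_univ S)
    rw [card_univ, Fintype.card_fin] at h
    omega
  obtain ⟨e, he⟩ : S.Nonempty := card_pos.1 (by omega)
  have hdisj : Disjoint (S.erase e) (insert e (univ \ S)) := by
    rw [disjoint_left]
    intro x hx hx'
    rw [mem_erase] at hx
    rw [mem_insert, mem_sdiff] at hx'
    rcases hx' with h | h
    · exact hx.1 h
    · exact h.2 hx.2
  have hun : S.erase e ∪ insert e (univ \ S) = univ := by
    ext x
    simp only [mem_union, mem_erase, mem_insert, mem_sdiff, mem_univ, true_and, iff_true]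
    by_cases hx : x ∈ S
    · by_cases hxe : x = e
      · exact Or.inr (Or.inl hxe)
      · exact Or.inl ⟨hxe, hx⟩
    · exact Or.inr (Or.inr hx)
  refine GG2_fib (S.erase e) (insert e (univ \ S)) hdisj hun H (fun I => R ^ d I)
    (fun I => pow_nonneg hR0 _) ρ _ hρ.le (by linarith) ?_
  intro T hT
  have hTS : T ⊆ S := hT.trans (erase_subset e S)
  have heT : e ∉ T := fun h => (mem_erase.1 (hT h)).1 rfl
  obtain ⟨h, hh⟩ : ∃ h : Finset (Fin p) → ℝ, ∀ A, h A =
      if T ∪ A ∈ H then R ^ d (T ∪ A) else 0 := ⟨_, fun A => rfl⟩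
  have hh0 : ∀ A, 0 ≤ h A := by
    intro A
    rw [hh]
    split_ifs
    · exact pow_nonneg hR0 _
    · exact le_refl _
  have hh1 : ∀ A, h A ≤ 1 := by
    intro A
    rw [hh]
    split_ifs
    · exact pow_le_one₀ hR0 hR1
    · exact zero_le_one
  have hsm : ∀ A, A ⊆ S → h A = 0 := by
    intro A hA
    rw [hh, if_neg]
    intro hm
    exact hi _ hm (union_subset hTS hA)
  have hpair : ∀ A, e ∉ A → h A = 0 ∨ h (insert e A) = 0 ∨ h A ≤ R ^ 2 := by
    intro A hA
    by_cases hm : T ∪ A ∈ H
    · by_cases hm' : T ∪ insert e A ∈ H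
      · right
        right
        rw [hh, if_pos hm]
        have hss : T ∪ A ⊂ T ∪ insert e A := by
          rw [ssubset_iff_subset_ne]
          refine ⟨union_subset_union_right (subset_insert e A), ?_⟩
          intro heq
          have h3 : e ∈ T ∪ insert e A := mem_union_right _ (mem_insert_self e A)
          rw [← heq, mem_union] at h3
          rcases h3 with h3 | h3
          · exact heT h3
          · exact hA h3
        have h4 := hiii _ hm _ hm' hss
        exact pow_le_pow_of_le_one hR0 hR1 (by omega)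
      · right
        left
        rw [hh, if_neg hm']
    · left
      rw [hh, if_neg hm]
  have hanti : ∀ A B, A ⊆ B → A ∩ S = B ∩ S → ¬ B ⊆ T ∪ A → h B = 0 ∨ h A = 0 := by
    intro A B hAB hABS hn
    by_cases hm : T ∪ B ∈ H
    · by_cases hm' : T ∪ A ∈ H
      · exfalso
        have h3 := hii _ hm' _ hm (by
          rw [union_inter_distrib_right, union_inter_distrib_right, hABS])
          (union_subset_union_right hAB)
        apply hn
        rw [h3]
        exact subset_union_right
      · right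
        rw [hh, if_neg hm']
    · left
      rw [hh, if_neg hm]
  have hgoal : ∑ A ∈ (insert e (univ \ S)).powerset, ρ ^ A.card *
      (1 - ρ) ^ ((insert e (univ \ S)).card - A.card) * h A ≤ (1 - ε) * (2 * ρ * (1 - ρ)) := by
    rcases Nat.lt_or_ge (univ \ S).card 1 with h0 | h0
    · have hU : univ \ S = ∅ := card_eq_zero.1 (by omega)
      have hall : ∀ A : Finset (Fin p), A ⊆ S := by
        intro A x _
        by_contra hx
        have h3 : x ∈ univ \ S := mem_sdiff.2 ⟨mem_univ x, hx⟩
        rw [hU] at h3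
        exact notMem_empty x h3
      rw [sum_eq_zero]
      · exact hc0
      · intro A _
        rw [hsm A (hall A), mul_zero]
    · rcases Nat.lt_or_ge (univ \ S).card 2 with h0' | h0'
      · obtain ⟨u, hu⟩ := card_eq_one.1 (show (univ \ S).card = 1 by omega)
        have huS : u ∉ S := by
          have h3 : u ∈ univ \ S := by
            rw [hu]
            exact mem_singleton_self u
          exact (mem_sdiff.1 h3).2
        have heu : e ≠ u := by
          rintro rfl
          exact huS he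
        rw [hu, GG2_pow2 e u heu, hsm ∅ (empty_subset _), hsm {e} (singleton_subset_iff.2 he)]
        have k1 : ({e, u} : Finset (Fin p)).card = 2 := card_pair heu
        rw [k1, card_singleton]
        have e0 := GG2_s ε ρ hε h1 h2
        have e1 : ρ * (1 - ρ) * h {u} ≤ ρ * (1 - ρ) * 1 :=
          mul_le_mul_of_nonneg_left (hh1 _) (by positivity)
        have e2 : ρ ^ 2 * h {e, u} ≤ ρ ^ 2 * 1 :=
          mul_le_mul_of_nonneg_left (hh1 _) (by positivity)
        have e3 : ρ * 1 ≤ ρ * (2 * (1 - ρ) * (1 - ε)) := mul_le_mul_of_nonneg_left e0 hρ.le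
        norm_num
        linarith
      · obtain ⟨u, v, huv, hU⟩ := card_eq_two.1 (show (univ \ S).card = 2 by omega)
        have huS : u ∉ S := by
          have h3 : u ∈ univ \ S := by
            rw [hU]
            exact mem_insert_self u _
          exact (mem_sdiff.1 h3).2
        have hvS : v ∉ S := by
          have h3 : v ∈ univ \ S := by
            rw [hU]
            exact mem_insert_of_mem (mem_singleton_self v)
          exact (mem_sdiff.1 h3).2
        have heu : e ≠ u := by
          rintro rfl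
          exact huS he
        have hev : e ≠ v := by
          rintro rfl
          exact hvS he
        have huT : u ∉ T := fun h3 => huS (hTS h3)
        have hvT : v ∉ T := fun h3 => hvS (hTS h3)
        have q1 : h {u, v} = 0 ∨ (h {u} = 0 ∧ h {v} = 0) := by
          have r1 := hanti {u} {u, v} (by
            intro x hx
            rw [mem_singleton] at hx
            rw [hx]
            exact mem_insert_self u _) (by
            ext x
            simp only [mem_inter, mem_singleton, mem_insert]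
            constructor
            · rintro ⟨h3, h4⟩
              exact ⟨Or.inl h3, h4⟩
            · rintro ⟨h3 | h3, h4⟩
              · exact ⟨h3, h4⟩
              · rw [h3] at h4
                exact absurd h4 hvS) (by
            intro h3
            have h4 : v ∈ T ∪ {u} := h3 (mem_insert_of_mem (mem_singleton_self v))
            rw [mem_union, mem_singleton] at h4
            rcases h4 with h4 | h4
            · exact hvT h4
            · exact huv h4.symm)
          have r2 := hanti {v} {u, v} (by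
            intro x hx
            rw [mem_singleton] at hx
            rw [hx]
            exact mem_insert_of_mem (mem_singleton_self v)) (by
            ext x
            simp only [mem_inter, mem_singleton, mem_insert]
            constructor
            · rintro ⟨h3, h4⟩
              exact ⟨Or.inr h3, h4⟩
            · rintro ⟨h3 | h3, h4⟩
              · rw [h3] at h4
                exact absurd h4 huS
              · exact ⟨h3, h4⟩) (by
            intro h3
            have h4 : u ∈ T ∪ {v} := h3 (mem_insert_self u _)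
            rw [mem_union, mem_singleton] at h4
            rcases h4 with h4 | h4
            · exact huT h4
            · exact huv h4)
          rcases r1 with r1 | r1
          · exact Or.inl r1
          · rcases r2 with r2 | r2
            · exact Or.inl r2
            · exact Or.inr ⟨r1, r2⟩
        have q2 : h {e, u, v} = 0 ∨ (h {e, u} = 0 ∧ h {e, v} = 0) := by
          have r1 := hanti {e, u} {e, u, v} (by
            intro x hx
            simp only [mem_singleton, mem_insert] at hx ⊢
            rcases hx with hx | hx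
            · exact Or.inl hx
            · exact Or.inr (Or.inl hx)) (by
            ext x
            simp only [mem_inter, mem_singleton, mem_insert]
            constructor
            · rintro ⟨h3 | h3, h4⟩
              · exact ⟨Or.inl h3, h4⟩
              · exact ⟨Or.inr (Or.inl h3), h4⟩
            · rintro ⟨h3 | h3 | h3, h4⟩
              · exact ⟨Or.inl h3, h4⟩
              · exact ⟨Or.inr h3, h4⟩
              · rw [h3] at h4
                exact absurd h4 hvS) (by
            intro h3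
            have h4 : v ∈ T ∪ {e, u} := h3 (by simp)
            simp only [mem_union, mem_singleton, mem_insert] at h4
            rcases h4 with h4 | h4 | h4
            · exact hvT h4
            · exact hev h4.symm
            · exact huv h4.symm)
          have r2 := hanti {e, v} {e, u, v} (by
            intro x hx
            simp only [mem_singleton, mem_insert] at hx ⊢
            rcases hx with hx | hx
            · exact Or.inl hx
            · exact Or.inr (Or.inr hx)) (by
            ext x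
            simp only [mem_inter, mem_singleton, mem_insert]
            constructor
            · rintro ⟨h3 | h3, h4⟩
              · exact ⟨Or.inl h3, h4⟩
              · exact ⟨Or.inr (Or.inr h3), h4⟩
            · rintro ⟨h3 | h3 | h3, h4⟩
              · exact ⟨Or.inl h3, h4⟩
              · rw [h3] at h4
                exact absurd h4 huS
              · exact ⟨Or.inr h3, h4⟩) (by
            intro h3
            have h4 : u ∈ T ∪ {e, v} := h3 (by simp)
            simp only [mem_union, mem_singleton, mem_insert] at h4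
            rcases h4 with h4 | h4 | h4
            · exact huT h4
            · exact heu h4.symm
            · exact huv h4)
          rcases r1 with r1 | r1
          · exact Or.inl r1
          · rcases r2 with r2 | r2
            · exact Or.inl r2
            · exact Or.inr ⟨r1, r2⟩
        have p1 := hpair {u} (by simpa using heu)
        have p2 := hpair {v} (by simpa using hev)
        have hn := GG2_num ε ρ R (h {u}) (h {v}) (h {u, v}) (h {e, u}) (h {e, v}) (h {e, u, v})
          hε h1 h2 hR0 hR (hh0 _) (hh0 _) (hh0 _) (hh0 _) (hh0 _) (hh0 _) (hh1 _) (hh1 _) (hh1 _)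
          (hh1 _) (hh1 _) (hh1 _) p1 p2 q1 q2
        rw [hU, GG2_pow3 e u v heu hev huv, hsm ∅ (empty_subset _),
          hsm {e} (singleton_subset_iff.2 he)]
        have k1 : ({e, u} : Finset (Fin p)).card = 2 := card_pair heu
        have k2 : ({e, v} : Finset (Fin p)).card = 2 := card_pair hev
        have k3 : ({u, v} : Finset (Fin p)).card = 2 := card_pair huv
        have k4 : ({e, u, v} : Finset (Fin p)).card = 3 := by
          rw [card_insert_of_notMem (by simp [heu, hev]), k3]
        rw [k1, k2, k3, k4, card_singleton, card_singleton]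
        norm_num
        linarith
  refine le_trans (le_of_eq ?_) hgoal
  refine sum_congr rfl fun A _ => ?_
  rw [hh]

end Pool.Agent.helper66.NM
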